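import Mathlib

/-!
# All points but one on a geodesic: linear independence of the configuration polynomials

Points of hyperbolic 3-space are points of the open unit ball (Klein model), geodesics are chords.
Let all points but `x k` lie on a chord with endpoints `W₁`, `W₂`.  In the coordinate `z` of the sphere
with `z(W₁) = 0`, `z(W₂) = ∞`, the planes through the chord become the lines through `0`, and the
endpoints of the rays from the points of the chord to `x k` lie on one half-line `λ ℝ_{>0}`, those of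
the opposite rays on the opposite half-line.  So, up to scalars, the polynomials are `z^N (z - λ r)`,
`N = 0, 1, …, n - 2`, and `∏ (z + λ q)` with all `r, q > 0`; a linear functional which is positive
on monomials and kills the first `n - 1` polynomials shows that the last one is independent of them.
-/

set_option autoImplicit false

namespace Pool.Agent.Results.MP_1fedf0_gt.CollinearPlusOne

open Polynomial

/-! ### An abstract independence statement for real polynomials -/

/-- coefficients of a product of linear factors with positive constant terms -/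
theorem prod_coeff_nonneg {ι : Type*} (S : Finset ι) (s : ι → ℝ) (hs : ∀ i ∈ S, 0 < s i) (j : ℕ) :
    0 ≤ (∏ i ∈ S, (X + C (s i)) : ℝ[X]).coeff j := by
  classical
  induction S using Finset.induction_on generalizing j with
  | empty =>
    rw [Finset.prod_empty, coeff_one]
    split_ifs <;> norm_num
  | insert a S ha ih =>
    rw [Finset.prod_insert ha, add_mul, coeff_add, coeff_C_mul]
    have h1 := ih (fun i hi => hs i (Finset.mem_insert_of_mem hi))
    have h2 := hs a (Finset.mem_insert_self _ _)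
    rcases j with _ | j
    · rw [coeff_X_mul_zero]
      have := mul_nonneg h2.le (h1 0)
      linarith
    · rw [coeff_X_mul]
      have := mul_nonneg h2.le (h1 (j + 1))
      have := h1 j
      linarith

theorem prod_coeff_top {ι : Type*} (S : Finset ι) (s : ι → ℝ) :
    (∏ i ∈ S, (X + C (s i)) : ℝ[X]).coeff S.card = 1 := by
  have hm : (∏ i ∈ S, (X + C (s i)) : ℝ[X]).Monic := monic_prod_of_monic _ _ fun i _ => monic_X_add_C _
  have hd : (∏ i ∈ S, (X + C (s i)) : ℝ[X]).natDegree = S.card := by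
    rw [natDegree_prod_of_monic _ _ fun i _ => monic_X_add_C _]
    simp
  rw [← hd]
  exact hm.coeff_natDegree

theorem prod_coeff_gt {ι : Type*} (S : Finset ι) (s : ι → ℝ) (j : ℕ) (hj : S.card < j) :
    (∏ i ∈ S, (X + C (s i)) : ℝ[X]).coeff j = 0 := by
  apply coeff_eq_zero_of_natDegree_lt
  rw [natDegree_prod_of_monic _ _ fun i _ => monic_X_add_C _]
  simpa using hj

theorem core {ι : Type*} (S : Finset ι) (N : ι → ℕ)
    (hN : ∀ i ∈ S, ∀ j ∈ S, N i = N j → i = j) (hlt : ∀ i ∈ S, N i < S.card) (r s : ι → ℝ)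
    (hr : ∀ i ∈ S, 0 < r i) (hs : ∀ i ∈ S, 0 < s i) (G : ι → ℂ) (G0 : ℂ)
    (H : ∑ i ∈ S, C (G i) * (X ^ N i * (X - C ((r i : ℝ) : ℂ))) +
      C G0 * ∏ i ∈ S, (X + C ((s i : ℝ) : ℂ)) = (0 : ℂ[X])) :
    G0 = 0 ∧ ∀ i ∈ S, G i = 0 := by
  classical
  -- weights
  let ρ : ℕ → ℝ := fun j => if h : ∃ i ∈ S, N i = j then r h.choose else 1
  have hρ : ∀ i ∈ S, ρ (N i) = r i := by
    intro i hi
    have hex : ∃ i' ∈ S, N i' = N i := ⟨i, hi, rfl⟩
    have h1 : ρ (N i) = r hex.choose := dif_pos hex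
    rw [h1]
    congr 1
    exact hN _ hex.choose_spec.1 _ hi hex.choose_spec.2
  have hρpos : ∀ j, 0 < ρ j := by
    intro j
    by_cases h : ∃ i ∈ S, N i = j
    · obtain ⟨i, hi, rfl⟩ := h
      rw [hρ i hi]
      exact hr i hi
    · have : ρ j = 1 := dif_neg h
      rw [this]
      norm_num
  let W : ℕ → ℝ := fun j => ∏ t ∈ Finset.range j, ρ t
  have hW : ∀ j, 0 < W j := fun j => Finset.prod_pos fun t _ => hρpos t
  have hWs : ∀ j, W (j + 1) = W j * ρ j := fun j => Finset.prod_range_succ _ _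
  let ℓ : ℂ[X] → ℂ := fun q => ∑ j ∈ Finset.range (S.card + 1), q.coeff j * ((W j : ℝ) : ℂ)
  have hadd : ∀ a b, ℓ (a + b) = ℓ a + ℓ b := by
    intro a b
    simp only [ℓ, coeff_add, add_mul, Finset.sum_add_distrib]
  have hCmul : ∀ c a, ℓ (C c * a) = c * ℓ a := by
    intro c a
    simp only [ℓ, coeff_C_mul, Finset.mul_sum, mul_assoc]
  have hzero : ℓ 0 = 0 := by simp [ℓ]
  have hsum : ∀ (T : Finset ι) (f : ι → ℂ[X]), ℓ (∑ i ∈ T, f i) = ∑ i ∈ T, ℓ (f i) := by
    intro T f
    induction T using Finset.induction_on with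
    | empty => simp [hzero]
    | insert a T ha ih => rw [Finset.sum_insert ha, Finset.sum_insert ha, hadd, ih]
  have hmon : ∀ i ∈ S, ℓ (X ^ N i * (X - C ((r i : ℝ) : ℂ))) = 0 := by
    intro i hi
    have h1 : ∀ j, (X ^ N i * (X - C ((r i : ℝ) : ℂ)) : ℂ[X]).coeff j =
        (if j = N i + 1 then 1 else 0) - (if j = N i then ((r i : ℝ) : ℂ) else 0) := by
      intro j
      rw [mul_sub, ← pow_succ, coeff_sub, coeff_X_pow, mul_comm, coeff_C_mul, coeff_X_pow]
      simp
    simp only [ℓ, h1, sub_mul, Finset.sum_sub_distrib]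
    have h2 : N i + 1 ∈ Finset.range (S.card + 1) := by
      rw [Finset.mem_range]; have := hlt i hi; omega
    have h3 : N i ∈ Finset.range (S.card + 1) := by
      rw [Finset.mem_range]; have := hlt i hi; omega
    simp only [ite_mul, one_mul, zero_mul, Finset.sum_ite_eq', if_pos h2, if_pos h3]
    rw [hWs, hρ i hi]
    push_cast
    ring
  have hprod : ∏ i ∈ S, (X + C ((s i : ℝ) : ℂ)) =
      ((∏ i ∈ S, (X + C (s i)) : ℝ[X]).map Complex.ofRealHom) := by
    rw [Polynomial.map_prod]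
    simp
  have hG0 : G0 = 0 := by
    have h1 := congrArg ℓ H
    rw [hadd, hsum, hCmul, hzero] at h1
    have h2 : ∑ i ∈ S, ℓ (C (G i) * (X ^ N i * (X - C ((r i : ℝ) : ℂ)))) = 0 := by
      apply Finset.sum_eq_zero
      intro i hi
      rw [hCmul, hmon i hi, mul_zero]
    rw [h2, zero_add] at h1
    rcases mul_eq_zero.1 h1 with h3 | h3
    · exact h3
    · exfalso
      rw [hprod] at h3
      simp only [ℓ, coeff_map, Complex.ofRealHom_eq_coe] at h3
      have h4 : (((∑ j ∈ Finset.range (S.card + 1),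
          (∏ i ∈ S, (X + C (s i)) : ℝ[X]).coeff j * W j : ℝ)) : ℂ) = 0 := by
        push_cast
        exact h3
      have h5 : (∑ j ∈ Finset.range (S.card + 1),
          (∏ i ∈ S, (X + C (s i)) : ℝ[X]).coeff j * W j : ℝ) = 0 := by exact_mod_cast h4
      rw [Finset.sum_range_succ, prod_coeff_top, one_mul] at h5
      have h6 : 0 ≤ ∑ j ∈ Finset.range S.card, (∏ i ∈ S, (X + C (s i)) : ℝ[X]).coeff j * W j :=
        Finset.sum_nonneg fun j _ => mul_nonneg (prod_coeff_nonneg S s hs j) (hW j).le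
      have := hW S.card
      linarith
  refine ⟨hG0, ?_⟩
  rw [hG0, map_zero, zero_mul, add_zero] at H
  -- the remaining coefficients
  have key : ∀ M : ℕ, ∀ i ∈ S, N i < M → G i = 0 := by
    intro M
    induction M with
    | zero => intro i _ h; omega
    | succ M ih =>
      intro i hi hiM
      by_cases h : N i < M
      · exact ih i hi h
      have hiM' : N i = M := by omega
      have h1 := congrArg (fun q => coeff q (N i)) H
      simp only [coeff_zero, finsetSum_coeff, coeff_C_mul] at h1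
      rw [Finset.sum_eq_single i] at h1
      · have h2 : (X ^ N i * (X - C ((r i : ℝ) : ℂ)) : ℂ[X]).coeff (N i) = -((r i : ℝ) : ℂ) := by
          rw [mul_sub, ← pow_succ, coeff_sub, coeff_X_pow, mul_comm, coeff_C_mul, coeff_X_pow]
          simp
        rw [h2] at h1
        have h3 : ((r i : ℝ) : ℂ) ≠ 0 := by exact_mod_cast (hr i hi).ne'
        rcases mul_eq_zero.1 h1 with h4 | h4
        · exact h4
        · exact absurd (neg_eq_zero.1 h4) h3
      · intro j hj hji
        have h2 : (X ^ N j * (X - C ((r j : ℝ) : ℂ)) : ℂ[X]).coeff (N i) =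
            (if N i = N j + 1 then 1 else 0) - (if N i = N j then ((r j : ℝ) : ℂ) else 0) := by
          rw [mul_sub, ← pow_succ, coeff_sub, coeff_X_pow, mul_comm, coeff_C_mul, coeff_X_pow]
          simp
        rw [h2]
        have h3 : N i ≠ N j := fun h => hji (hN j hj i hi h.symm)
        rw [if_neg h3]
        split_ifs with h4
        · rw [ih j hj (by omega), zero_mul]
        · simp
      · intro h; exact absurd hi h
  intro i hi
  exact key (N i + 1) i hi (by omega)

/-! ### Spinors -/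

/-- the symplectic form on `ℂ²` -/
def br (a b : ℂ × ℂ) : ℂ := a.1 * b.2 - a.2 * b.1

/-- a spinor representing the point `p` of the unit sphere -/
noncomputable def spin (p : Fin 3 → ℝ) : ℂ × ℂ :=
  if p 2 = 1 then (-1, 0) else (((p 0 : ℂ) + (p 1 : ℂ) * Complex.I) / (1 - (p 2 : ℂ)), 1)

theorem spin_br (p : Fin 3 → ℝ) (t : ℂ × ℂ) (ht : t.2 ≠ 0) :
    br t (spin p) = t.2 * (if p 2 = 1 then (1 : Polynomial ℂ) else
            Polynomial.X - Polynomial.C
              (((p 0 : ℂ) + (p 1 : ℂ) * Complex.I) / (1 - (p 2 : ℂ)))).eval (t.1 / t.2) := by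
  unfold spin br
  split_ifs
  · simp
  · simp only [Polynomial.eval_sub, Polynomial.eval_X, Polynomial.eval_C]
    field_simp

theorem spin_herm {p : Fin 3 → ℝ} (hp : ∑ k, p k ^ 2 = 1) : ∃ κ : ℝ, 0 < κ ∧
    (spin p).1 * (starRingEnd ℂ) (spin p).1 = κ * (1 + (p 2 : ℂ)) ∧
    (spin p).2 * (starRingEnd ℂ) (spin p).2 = κ * (1 - (p 2 : ℂ)) ∧
    (spin p).1 * (starRingEnd ℂ) (spin p).2 = κ * ((p 0 : ℂ) + (p 1 : ℂ) * Complex.I) ∧
    (spin p).2 * (starRingEnd ℂ) (spin p).1 = κ * ((p 0 : ℂ) - (p 1 : ℂ) * Complex.I) := by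
  simp only [Fin.sum_univ_three] at hp
  by_cases h : p 2 = 1
  · refine ⟨1 / 2, by norm_num, ?_⟩
    rw [h] at hp
    have h0 : p 0 = 0 := by nlinarith [sq_nonneg (p 0), sq_nonneg (p 1)]
    have h1 : p 1 = 0 := by nlinarith [sq_nonneg (p 0), sq_nonneg (p 1)]
    simp only [spin, h, if_true, h0, h1]
    refine ⟨?_, ?_, ?_, ?_⟩
    · simp; norm_num
    · simp
    · simp
    · simp
  · have h2 : p 2 < 1 := by
      have : p 2 ≤ 1 := by nlinarith [sq_nonneg (p 0), sq_nonneg (p 1)]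
      exact lt_of_le_of_ne this h
    have h3 : (1 - (p 2 : ℂ)) ≠ 0 := by
      have : (1 - p 2 : ℝ) ≠ 0 := by linarith
      exact_mod_cast this
    refine ⟨1 / (1 - p 2), div_pos one_pos (by linarith), ?_⟩
    have hsq : ((p 0 : ℂ) + (p 1 : ℂ) * Complex.I) * ((p 0 : ℂ) - (p 1 : ℂ) * Complex.I) =
        (1 + (p 2 : ℂ)) * (1 - (p 2 : ℂ)) := by
      have h5 : ((p 0 : ℂ)) ^ 2 + (p 1 : ℂ) ^ 2 + (p 2 : ℂ) ^ 2 = 1 := by exact_mod_cast hp
      linear_combination h5 - (p 1 : ℂ) ^ 2 * Complex.I_sq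
    have hconj : (starRingEnd ℂ) (((p 0 : ℂ) + (p 1 : ℂ) * Complex.I) / (1 - (p 2 : ℂ))) =
        ((p 0 : ℂ) - (p 1 : ℂ) * Complex.I) / (1 - (p 2 : ℂ)) := by
      simp only [map_div₀, map_add, map_sub, map_mul, Complex.conj_ofReal, Complex.conj_I, map_one]
      ring
    simp only [spin, h, if_false, hconj, map_one]
    push_cast
    refine ⟨?_, ?_, ?_, ?_⟩
    · field_simp
      linear_combination hsq
    · field_simp
    · field_simp
    · field_simp

/-- the affine function attached to two spinors -/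
noncomputable def Lam (α γ : ℂ × ℂ) (p : Fin 3 → ℝ) : ℂ :=
  (1 + (p 2 : ℂ)) * (α.2 * (starRingEnd ℂ) γ.2)
    - ((p 0 : ℂ) + (p 1 : ℂ) * Complex.I) * (α.2 * (starRingEnd ℂ) γ.1)
    - ((p 0 : ℂ) - (p 1 : ℂ) * Complex.I) * (α.1 * (starRingEnd ℂ) γ.2)
    + (1 - (p 2 : ℂ)) * (α.1 * (starRingEnd ℂ) γ.1)

theorem Lam_line (α γ : ℂ × ℂ) (x y : Fin 3 → ℝ) (t : ℝ) :
    Lam α γ (x + t • (y - x)) = Lam α γ x + (t : ℂ) * (Lam α γ y - Lam α γ x) := by
  unfold Lam
  simp only [Pi.add_apply, Pi.smul_apply, Pi.sub_apply, smul_eq_mul]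
  push_cast
  ring

theorem Lam_spin (α γ : ℂ × ℂ) {p : Fin 3 → ℝ} (hp : ∑ k, p k ^ 2 = 1) : ∃ κ : ℝ, 0 < κ ∧
    br (spin p) α * (starRingEnd ℂ) (br (spin p) γ) = κ * Lam α γ p := by
  obtain ⟨κ, hκ, h1, h2, h3, h4⟩ := spin_herm hp
  refine ⟨κ, hκ, ?_⟩
  unfold br Lam
  simp only [map_sub, map_mul]
  linear_combination (α.2 * (starRingEnd ℂ) γ.2) * h1 + (α.1 * (starRingEnd ℂ) γ.1) * h2
    - (α.2 * (starRingEnd ℂ) γ.1) * h3 - (α.1 * (starRingEnd ℂ) γ.2) * h4

theorem spin_inj {p q : Fin 3 → ℝ} (hp : ∑ k, p k ^ 2 = 1) (hq : ∑ k, q k ^ 2 = 1)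
    (h : br (spin p) (spin q) = 0) : p = q := by
  have key : spin p = spin q := by
    by_cases h1 : p 2 = 1
    · by_cases h2 : q 2 = 1
      · simp [spin, h1, h2]
      · simp [spin, br, h1, h2] at h
    · by_cases h2 : q 2 = 1
      · simp [spin, br, h1, h2] at h
      · simp only [spin, br, h1, h2, if_false, mul_one, one_mul] at h ⊢
        rw [sub_eq_zero.1 h]
  obtain ⟨κ, hκ, a1, a2, a3, -⟩ := spin_herm hp
  obtain ⟨μ, hμ, b1, b2, b3, -⟩ := spin_herm hq
  rw [key] at a1 a2 a3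
  rw [a1] at b1
  rw [a2] at b2
  rw [a3] at b3
  have c1 : κ * (1 + p 2) = μ * (1 + q 2) := by exact_mod_cast b1
  have c2 : κ * (1 - p 2) = μ * (1 - q 2) := by exact_mod_cast b2
  have c0 : κ = μ := by linarith
  subst c0
  have d2 : p 2 = q 2 := by
    have : κ * p 2 = κ * q 2 := by linarith
    exact mul_left_cancel₀ hκ.ne' this
  have c3 : ((p 0 : ℂ) + (p 1 : ℂ) * Complex.I) = ((q 0 : ℂ) + (q 1 : ℂ) * Complex.I) := by
    have hκ' : (κ : ℂ) ≠ 0 := by exact_mod_cast hκ.ne'
    exact mul_left_cancel₀ hκ' b3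
  have d0 : p 0 = q 0 := by
    have := congrArg Complex.re c3
    simpa using this
  have d1 : p 1 = q 1 := by
    have := congrArg Complex.im c3
    simpa using this
  funext k
  fin_cases k
  · exact d0
  · exact d1
  · exact d2

/-! ### Lines and their endpoints -/

/-- endpoints of a line through a point of the open ball -/
theorem endpoints (a d : Fin 3 → ℝ) (hd : d ≠ 0) (s0 : ℝ) (h0 : ∑ k, (a k + s0 * d k) ^ 2 < 1) :
    ∃ τ₁ τ₂ D : ℝ, τ₁ < τ₂ ∧ 0 < D ∧ ∀ τ, ∑ k, (a k + τ * d k) ^ 2 - 1 = D * ((τ - τ₁) * (τ - τ₂)) := by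
  set D : ℝ := ∑ k, d k ^ 2 with hD
  have hDpos : 0 < D := by
    rcases lt_or_eq_of_le (Finset.sum_nonneg fun k _ => sq_nonneg (d k) : 0 ≤ ∑ k, d k ^ 2) with h | h
    · exact h
    · exfalso
      apply hd
      funext k
      have := (Finset.sum_eq_zero_iff_of_nonneg (fun k _ => sq_nonneg (d k))).1 h.symm k (Finset.mem_univ _)
      simpa using this
  set B : ℝ := ∑ k, a k * d k with hB
  set E : ℝ := ∑ k, a k ^ 2 - 1 with hE
  have hq : ∀ τ, ∑ k, (a k + τ * d k) ^ 2 - 1 = D * τ ^ 2 + 2 * B * τ + E := by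
    intro τ
    simp only [hD, hB, hE, Fin.sum_univ_three]
    ring
  have hdisc : 0 < B ^ 2 - D * E := by
    have h1 := hq s0
    have h2 : D * s0 ^ 2 + 2 * B * s0 + E < 0 := by linarith
    nlinarith [sq_nonneg (D * s0 + B)]
  set R := Real.sqrt (B ^ 2 - D * E) with hR
  have hRpos : 0 < R := Real.sqrt_pos.2 hdisc
  have hR2 : R ^ 2 = B ^ 2 - D * E := Real.sq_sqrt hdisc.le
  refine ⟨(-B - R) / D, (-B + R) / D, D, ?_, hDpos, ?_⟩
  · exact div_lt_div_of_pos_right (by linarith) hDpos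
  · intro τ
    rw [hq]
    field_simp
    nlinarith

section Line

variable {n : ℕ} (x : Fin n → Fin 3 → ℝ) (p : Fin n → Fin n → Fin 3 → ℝ)

theorem dirs (hx : ∀ i, ∑ k : Fin 3, (x i k) ^ 2 < 1)
    (hp : ∀ i j, i ≠ j → (∑ k : Fin 3, (p i j k) ^ 2 = 1) ∧
      ∃ t : ℝ, 0 < t ∧ p i j = x i + t • (x j - x i))
    (a d : Fin 3 → ℝ) (hd : d ≠ 0) (S : Finset (Fin n)) (s : Fin n → ℝ)
    (hs : ∀ i ∈ S, x i = a + s i • d) (hS : S.Nonempty) :
    ∃ τ₁ τ₂ : ℝ, τ₁ < τ₂ ∧ (∑ k, (a + τ₁ • d) k ^ 2 = 1) ∧ (∑ k, (a + τ₂ • d) k ^ 2 = 1) ∧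
      ∀ i ∈ S, ∀ j ∈ S, i ≠ j → (s i < s j → p i j = a + τ₂ • d) ∧ (s j < s i → p i j = a + τ₁ • d) := by
  obtain ⟨i0, hi0⟩ := hS
  have h0 : ∑ k, (a k + s i0 * d k) ^ 2 < 1 := by
    have := hx i0
    rw [hs i0 hi0] at this
    simpa using this
  obtain ⟨τ₁, τ₂, D, hlt, hD, hq⟩ := endpoints a d hd (s i0) h0
  refine ⟨τ₁, τ₂, hlt, ?_, ?_, ?_⟩
  · have := hq τ₁
    simp only [Pi.add_apply, Pi.smul_apply, smul_eq_mul]
    linarith [this, show D * ((τ₁ - τ₁) * (τ₁ - τ₂)) = 0 by ring]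
  · have := hq τ₂
    simp only [Pi.add_apply, Pi.smul_apply, smul_eq_mul]
    linarith [this, show D * ((τ₂ - τ₁) * (τ₂ - τ₂)) = 0 by ring]
  have hin : ∀ i ∈ S, τ₁ < s i ∧ s i < τ₂ := by
    intro i hi
    have h1 : ∑ k, (a k + s i * d k) ^ 2 < 1 := by
      have := hx i
      rw [hs i hi] at this
      simpa using this
    have h2 := hq (s i)
    have h3 : (s i - τ₁) * (s i - τ₂) < 0 := by
      by_contra hcon
      push Not at hcon
      have := mul_nonneg hD.le hcon
      linarith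
    constructor
    · by_contra hcon
      push Not at hcon
      nlinarith
    · by_contra hcon
      push Not at hcon
      nlinarith
  intro i hi j hj hij
  obtain ⟨h1, t, ht, h2⟩ := hp i j hij
  have h3 : p i j = a + (s i + t * (s j - s i)) • d := by
    rw [h2, hs i hi, hs j hj]
    funext k
    simp only [Pi.add_apply, Pi.smul_apply, Pi.sub_apply, smul_eq_mul]
    ring
  have h4 : D * ((s i + t * (s j - s i) - τ₁) * (s i + t * (s j - s i) - τ₂)) = 0 := by
    rw [← hq]
    rw [h3] at h1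
    simp only [Pi.add_apply, Pi.smul_apply, smul_eq_mul] at h1
    linarith
  have h5 := (mul_eq_zero.1 h4).resolve_left hD.ne'
  obtain ⟨b1, b2⟩ := hin i hi
  constructor
  · intro hlt'
    have h6 : 0 < t * (s j - s i) := mul_pos ht (by linarith)
    have h7 : s i + t * (s j - s i) = τ₂ := by
      rcases mul_eq_zero.1 h5 with h | h
      · exfalso; linarith
      · linarith
    rw [h3, h7]
  · intro hlt'
    have h6 : 0 < t * (s i - s j) := mul_pos ht (by linarith)
    have h7 : s i + t * (s j - s i) = τ₁ := by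
      rcases mul_eq_zero.1 h5 with h | h
      · linarith
      · exfalso; nlinarith
    rw [h3, h7]

/-- number of points of `S` below `i` -/
noncomputable def cnt (S : Finset (Fin n)) (s : Fin n → ℝ) (i : Fin n) : ℕ :=
  (S.filter fun j => s j < s i).card

theorem cnt_lt (S : Finset (Fin n)) (s : Fin n → ℝ) (i : Fin n) (hi : i ∈ S) : cnt S s i < S.card := by
  apply Finset.card_lt_card
  refine ⟨Finset.filter_subset _ _, fun h => ?_⟩
  have := h hi
  simp at this

theorem cnt_inj (S : Finset (Fin n)) (s : Fin n → ℝ) (hs : ∀ i ∈ S, ∀ j ∈ S, s i = s j → i = j) :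
    ∀ i ∈ S, ∀ j ∈ S, cnt S s i = cnt S s j → i = j := by
  have key : ∀ i ∈ S, ∀ j ∈ S, s i < s j → cnt S s i < cnt S s j := by
    intro i hi j hj hij
    apply Finset.card_lt_card
    refine ⟨?_, fun h => ?_⟩
    · intro l hl
      rw [Finset.mem_filter] at hl ⊢
      exact ⟨hl.1, hl.2.trans hij⟩
    · have := h (Finset.mem_filter.2 ⟨hi, hij⟩)
      simp at this
  intro i hi j hj hij
  by_contra hne
  have hsne : s i ≠ s j := fun h => hne (hs i hi j hj h)
  rcases lt_or_gt_of_ne hsne with h | h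
  · have := key i hi j hj h; omega
  · have := key j hj i hi h; omega

/-- the vector with coordinates `(1, ζ)` with respect to the forms `br · γ`, `br · α` -/
noncomputable def TT (α γ : ℂ × ℂ) (ζ : ℂ) : ℂ × ℂ :=
  ((α.1 - ζ * γ.1) / br α γ, (α.2 - ζ * γ.2) / br α γ)

theorem br_TT (α γ w : ℂ × ℂ) (ζ : ℂ) (h : br α γ ≠ 0) :
    br (TT α γ ζ) w = (ζ * br w γ - br w α) / br α γ := by
  unfold TT
  simp only [br]
  unfold br at h
  field_simp
  ring

theorem TT_infinite (α γ : ℂ × ℂ) (h : br α γ ≠ 0) (c : ℂ) (hc : c ≠ 0) :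
    Set.Infinite {z : ℂ | (TT α γ (c * z)).2 ≠ 0} := by
  by_cases hγ : γ.2 = 0
  · have hα : α.2 ≠ 0 := by
      intro hα
      apply h
      simp [br, hα, hγ]
    have : {z : ℂ | (TT α γ (c * z)).2 ≠ 0} = Set.univ := by
      ext z
      simp [TT, hγ, hα, h]
    rw [this]
    exact Set.infinite_univ
  · have : ({α.2 / (c * γ.2)} : Set ℂ)ᶜ ⊆ {z : ℂ | (TT α γ (c * z)).2 ≠ 0} := by
      intro z hz
      simp only [Set.mem_compl_iff, Set.mem_singleton_iff] at hz
      change (α.2 - c * z * γ.2) / br α γ ≠ 0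
      refine div_ne_zero ?_ h
      intro h1
      apply hz
      field_simp
      linear_combination -h1
    exact (Set.finite_singleton _).infinite_compl.mono this

/-- the relation in homogeneous form -/
theorem relation (g : Fin n → ℂ)
    (hg : ∑ i, g i • (∏ j ∈ Finset.univ.erase i,
          (if p i j 2 = 1 then (1 : Polynomial ℂ) else
            Polynomial.X - Polynomial.C
              (((p i j 0 : ℂ) + (p i j 1 : ℂ) * Complex.I) / (1 - (p i j 2 : ℂ))))) = 0)
    (t : ℂ × ℂ) (ht : t.2 ≠ 0) :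
    ∑ i, g i * ∏ j ∈ Finset.univ.erase i, br t (spin (p i j)) = 0 := by
  have h1 := congrArg (Polynomial.eval (t.1 / t.2)) hg
  rw [Polynomial.eval_finsetSum] at h1
  simp only [Polynomial.eval_smul, smul_eq_mul, Polynomial.eval_zero, Polynomial.eval_prod] at h1
  have h2 : ∀ i, ∏ j ∈ Finset.univ.erase i, br t (spin (p i j)) = t.2 ^ (n - 1) *
      ∏ j ∈ Finset.univ.erase i, (if p i j 2 = 1 then (1 : Polynomial ℂ) else
          Polynomial.X - Polynomial.C
            (((p i j 0 : ℂ) + (p i j 1 : ℂ) * Complex.I) / (1 - (p i j 2 : ℂ)))).eval (t.1 / t.2) := by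
    intro i
    rw [Finset.prod_congr rfl fun j _ => spin_br (p i j) t ht, Finset.prod_mul_distrib,
      Finset.prod_const, Finset.card_erase_of_mem (Finset.mem_univ i), Finset.card_univ,
      Fintype.card_fin]
  simp only [h2]
  rw [← mul_zero (t.2 ^ (n - 1)), ← h1, Finset.mul_sum]
  apply Finset.sum_congr rfl
  intro i _
  ring

/-- product over the other points of the line -/
theorem prod_line (S : Finset (Fin n)) (s : Fin n → ℝ)
    (hsinj : ∀ i ∈ S, ∀ j ∈ S, s i = s j → i = j) (Wp Wm : Fin 3 → ℝ)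
    (hdir : ∀ i ∈ S, ∀ j ∈ S, i ≠ j → (s i < s j → p i j = Wp) ∧ (s j < s i → p i j = Wm))
    (t : ℂ × ℂ) (ζ : ℂ) (h1 : br t (spin Wp) = 1) (h2 : br t (spin Wm) = ζ) (i : Fin n) (hi : i ∈ S) :
    ∏ j ∈ S.erase i, br t (spin (p i j)) = ζ ^ cnt S s i := by
  have h3 : ∀ j ∈ S.erase i, br t (spin (p i j)) = if s j < s i then ζ else 1 := by
    intro j hj
    have hji := Finset.ne_of_mem_erase hj
    have hjS := Finset.mem_of_mem_erase hj
    have hne : s i ≠ s j := fun h => hji (hsinj i hi j hjS h).symm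
    rcases lt_or_gt_of_ne hne with h | h
    · rw [(hdir i hi j hjS hji.symm).1 h, h1, if_neg (by linarith)]
    · rw [(hdir i hi j hjS hji.symm).2 h, h2, if_pos h]
  rw [Finset.prod_congr rfl h3, Finset.prod_ite, Finset.prod_const, Finset.prod_const_one, mul_one]
  congr 1
  unfold cnt
  congr 1
  ext j
  simp only [Finset.mem_filter, Finset.mem_erase]
  constructor
  · rintro ⟨⟨_, h⟩, h'⟩
    exact ⟨h, h'⟩
  · rintro ⟨h, h'⟩
    exact ⟨⟨fun e => by rw [e] at h'; exact lt_irrefl _ h', h⟩, h'⟩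

/-- all points on a line -/
theorem all_collinear (hinj : Function.Injective x) (hx : ∀ i, ∑ k : Fin 3, (x i k) ^ 2 < 1)
    (hp : ∀ i j, i ≠ j → (∑ k : Fin 3, (p i j k) ^ 2 = 1) ∧
      ∃ t : ℝ, 0 < t ∧ p i j = x i + t • (x j - x i))
    (a d : Fin 3 → ℝ) (hd : d ≠ 0) (s : Fin n → ℝ) (hs : ∀ i, x i = a + s i • d) (i0 : Fin n)
    (g : Fin n → ℂ)
    (hg : ∑ i, g i • (∏ j ∈ Finset.univ.erase i,
          (if p i j 2 = 1 then (1 : Polynomial ℂ) else
            Polynomial.X - Polynomial.C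
              (((p i j 0 : ℂ) + (p i j 1 : ℂ) * Complex.I) / (1 - (p i j 2 : ℂ))))) = 0) :
    ∀ i, g i = 0 := by
  classical
  obtain ⟨τ₁, τ₂, hlt, hm, hpl, hdir⟩ := dirs x p hx hp a d hd Finset.univ s (fun i _ => hs i)
    ⟨i0, Finset.mem_univ _⟩
  have hsinj : ∀ i ∈ Finset.univ, ∀ j ∈ Finset.univ, s i = s j → i = j := by
    intro i _ j _ h
    apply hinj
    rw [hs i, hs j, h]
  set α := spin (a + τ₁ • d) with hα
  set γ := spin (a + τ₂ • d) with hγ
  have hne : br α γ ≠ 0 := by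
    intro h
    have h1 := spin_inj hm hpl h
    apply hd
    have h2 : (τ₂ - τ₁) • d = 0 := by
      rw [sub_smul]
      rw [add_right_inj] at h1
      rw [h1, sub_self]
    rcases smul_eq_zero.1 h2 with h3 | h3
    · linarith
    · exact h3
  have hT1 : ∀ ζ, br (TT α γ ζ) γ = 1 := by
    intro ζ
    rw [br_TT _ _ _ _ hne, div_eq_iff hne]
    unfold br
    ring
  have hT2 : ∀ ζ, br (TT α γ ζ) α = ζ := by
    intro ζ
    rw [br_TT _ _ _ _ hne, div_eq_iff hne]
    unfold br
    ring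
  let H : ℂ[X] := ∑ i, C (g i) * X ^ cnt Finset.univ s i
  have hH : H = 0 := by
    apply Polynomial.eq_zero_of_infinite_isRoot
    refine (TT_infinite α γ hne 1 one_ne_zero).mono ?_
    intro z hz
    rw [Set.mem_ofPred_eq, one_mul] at hz
    have h1 := relation p g hg (TT α γ z) hz
    change IsRoot H z
    rw [IsRoot.def]
    rw [← h1]
    simp only [H, Polynomial.eval_finsetSum, eval_mul, eval_C, eval_pow, eval_X]
    apply Finset.sum_congr rfl
    intro i _
    rw [prod_line p Finset.univ s hsinj _ _ hdir _ z (hT1 z) (hT2 z) i (Finset.mem_univ i)]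
  intro i
  have h1 := congrArg (fun q => coeff q (cnt Finset.univ s i)) hH
  simp only [H, finsetSum_coeff, coeff_C_mul, coeff_X_pow, coeff_zero] at h1
  rw [Finset.sum_eq_single i] at h1
  · simpa using h1
  · intro j _ hji
    rw [if_neg, mul_zero]
    intro h
    exact hji (cnt_inj Finset.univ s hsinj i (Finset.mem_univ _) j (Finset.mem_univ _) h).symm
  · intro h; exact absurd (Finset.mem_univ _) h

theorem t_gt_one {u y q : Fin 3 → ℝ} (hu : ∑ k, u k ^ 2 < 1) (hy : ∑ k, y k ^ 2 < 1)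
    (hq : ∑ k, q k ^ 2 = 1) (t : ℝ) (ht : 0 < t) (hqt : q = u + t • (y - u)) : 1 < t := by
  by_contra hcon
  push Not at hcon
  have h1 : ∑ k, q k ^ 2 < 1 := by
    rw [hqt]
    simp only [Fin.sum_univ_three, Pi.add_apply, Pi.smul_apply, Pi.sub_apply, smul_eq_mul] at hu hy ⊢
    nlinarith [mul_nonneg ht.le (sub_nonneg.2 hcon), sq_nonneg (y 0 - u 0), sq_nonneg (y 1 - u 1),
      sq_nonneg (y 2 - u 2), mul_nonneg (mul_nonneg ht.le (sub_nonneg.2 hcon)) (sq_nonneg (y 0 - u 0)),
      mul_nonneg (mul_nonneg ht.le (sub_nonneg.2 hcon)) (sq_nonneg (y 1 - u 1)),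
      mul_nonneg (mul_nonneg ht.le (sub_nonneg.2 hcon)) (sq_nonneg (y 2 - u 2))]
  linarith

/-- all points but one on a line -/
theorem off_line (hinj : Function.Injective x) (hx : ∀ i, ∑ k : Fin 3, (x i k) ^ 2 < 1)
    (hp : ∀ i j, i ≠ j → (∑ k : Fin 3, (p i j k) ^ 2 = 1) ∧
      ∃ t : ℝ, 0 < t ∧ p i j = x i + t • (x j - x i))
    (a d : Fin 3 → ℝ) (hd : d ≠ 0) (s : Fin n → ℝ) (k : Fin n)
    (hs : ∀ i, i ≠ k → x i = a + s i • d) (i0 : Fin n) (hi0 : i0 ≠ k)
    (hoff : ¬ ∃ τ : ℝ, x k = a + τ • d)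
    (g : Fin n → ℂ)
    (hg : ∑ i, g i • (∏ j ∈ Finset.univ.erase i,
          (if p i j 2 = 1 then (1 : Polynomial ℂ) else
            Polynomial.X - Polynomial.C
              (((p i j 0 : ℂ) + (p i j 1 : ℂ) * Complex.I) / (1 - (p i j 2 : ℂ))))) = 0) :
    ∀ i, g i = 0 := by
  classical
  set S : Finset (Fin n) := Finset.univ.erase k with hSdef
  have hSmem : ∀ i, i ∈ S ↔ i ≠ k := by intro i; simp [S]
  obtain ⟨τ₁, τ₂, hlt, hm, hpl, hdir⟩ := dirs x p hx hp a d hd S s (fun i hi => hs i ((hSmem i).1 hi))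
    ⟨i0, (hSmem i0).2 hi0⟩
  have hsinj : ∀ i ∈ S, ∀ j ∈ S, s i = s j → i = j := by
    intro i hi j hj h
    apply hinj
    rw [hs i ((hSmem i).1 hi), hs j ((hSmem j).1 hj), h]
  set α := spin (a + τ₁ • d) with hα
  set γ := spin (a + τ₂ • d) with hγ
  have hne : br α γ ≠ 0 := by
    intro h
    have h1 := spin_inj hm hpl h
    apply hd
    have h2 : (τ₂ - τ₁) • d = 0 := by
      rw [sub_smul]
      rw [add_right_inj] at h1
      rw [h1, sub_self]
    rcases smul_eq_zero.1 h2 with h3 | h3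
    · linarith
    · exact h3
  have hT1 : ∀ ζ, br (TT α γ ζ) γ = 1 := by
    intro ζ
    rw [br_TT _ _ _ _ hne, div_eq_iff hne]
    unfold br
    ring
  have hT2 : ∀ ζ, br (TT α γ ζ) α = ζ := by
    intro ζ
    rw [br_TT _ _ _ _ hne, div_eq_iff hne]
    unfold br
    ring
  -- the affine function vanishes on the line
  have hLm : Lam α γ (a + τ₁ • d) = 0 := by
    obtain ⟨κ, hκ, h⟩ := Lam_spin α γ hm
    have h1 : br (spin (a + τ₁ • d)) α = 0 := by rw [hα]; unfold br; ring
    rw [h1, zero_mul] at h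
    have hκ' : (κ : ℂ) ≠ 0 := by exact_mod_cast hκ.ne'
    exact (mul_eq_zero.1 h.symm).resolve_left hκ'
  have hLp : Lam α γ (a + τ₂ • d) = 0 := by
    obtain ⟨κ, hκ, h⟩ := Lam_spin α γ hpl
    have h1 : br (spin (a + τ₂ • d)) γ = 0 := by rw [hγ]; unfold br; ring
    rw [h1, map_zero, mul_zero] at h
    have hκ' : (κ : ℂ) ≠ 0 := by exact_mod_cast hκ.ne'
    exact (mul_eq_zero.1 h.symm).resolve_left hκ'
  have hL0 : ∀ τ : ℝ, Lam α γ (a + τ • d) = 0 := by
    intro τ
    have h1 : a + τ • d = (a + τ₁ • d) + ((τ - τ₁) / (τ₂ - τ₁)) • ((a + τ₂ • d) - (a + τ₁ • d)) := by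
      have h2 : τ₂ - τ₁ ≠ 0 := by linarith
      funext l
      simp only [Pi.add_apply, Pi.smul_apply, Pi.sub_apply, smul_eq_mul]
      field_simp
      ring
    rw [h1, Lam_line, hLm, hLp]
    ring
  set lam := Lam α γ (x k) with hlam
  have hlam0 : lam ≠ 0 := by
    intro h0
    obtain ⟨h1, t, ht, h2⟩ := hp i0 k hi0
    obtain ⟨κ, hκ, h3⟩ := Lam_spin α γ h1
    have h4 : Lam α γ (p i0 k) = 0 := by
      rw [h2, Lam_line, hs i0 hi0, hL0]
      rw [← hlam, h0]
      ring
    rw [h4, mul_zero] at h3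
    have hon : ∃ τ : ℝ, p i0 k = a + τ • d := by
      rcases mul_eq_zero.1 h3 with h5 | h5
      · exact ⟨τ₁, spin_inj h1 hm h5⟩
      · have h6 : br (spin (p i0 k)) γ = 0 := by
          have := congrArg (starRingEnd ℂ) h5
          simpa using this
        exact ⟨τ₂, spin_inj h1 hpl h6⟩
    obtain ⟨τ, hτ⟩ := hon
    apply hoff
    refine ⟨s i0 + (τ - s i0) / t, ?_⟩
    have h7 : a + τ • d = x i0 + t • (x k - x i0) := by rw [← hτ, h2]
    rw [hs i0 hi0] at h7
    funext l
    have h8 := congrFun h7 l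
    simp only [Pi.add_apply, Pi.smul_apply, Pi.sub_apply, smul_eq_mul] at h8 ⊢
    field_simp
    linear_combination -h8
  -- the roots u_{ik}
  have hA : ∀ i ∈ S, ∃ (c : ℂ) (r : ℝ), c ≠ 0 ∧ 0 < r ∧
      ∀ z, br (TT α γ (lam * z)) (spin (p i k)) = c * (z - (r : ℂ)) := by
    intro i hi
    have hik := (hSmem i).1 hi
    obtain ⟨h1, t, ht, h2⟩ := hp i k hik
    obtain ⟨κ, hκ, h3⟩ := Lam_spin α γ h1
    have h4 : Lam α γ (p i k) = t * lam := by
      rw [h2, Lam_line, hs i hik, hL0]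
      rw [← hlam]
      ring
    rw [h4] at h3
    set v := br (spin (p i k)) γ with hv
    have htc : (t : ℂ) ≠ 0 := by exact_mod_cast ht.ne'
    have hκc : (κ : ℂ) ≠ 0 := by exact_mod_cast hκ.ne'
    have hv0 : v ≠ 0 := by
      intro h
      rw [h, map_zero, mul_zero] at h3
      exact (mul_ne_zero hκc (mul_ne_zero htc hlam0)) h3.symm
    have hns : 0 < Complex.normSq v := Complex.normSq_pos.2 hv0
    have hvv : v * (starRingEnd ℂ) v = ((Complex.normSq v : ℝ) : ℂ) := Complex.mul_conj v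
    have hcv : (starRingEnd ℂ) v ≠ 0 := by
      intro h; rw [h, mul_zero] at hvv
      exact hns.ne' (by exact_mod_cast hvv.symm)
    refine ⟨v * lam / br α γ, κ * t / Complex.normSq v, div_ne_zero (mul_ne_zero hv0 hlam0) hne,
      div_pos (mul_pos hκ ht) hns, fun z => ?_⟩
    rw [br_TT _ _ _ _ hne, ← hv]
    have h5 : br (spin (p i k)) α = lam * v * ((κ * t / Complex.normSq v : ℝ) : ℂ) := by
      apply mul_right_cancel₀ hcv
      rw [h3]
      push_cast
      rw [← hvv]
      field_simp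
    rw [h5]
    field_simp
  have hB : ∀ i ∈ S, ∃ (c : ℂ) (r : ℝ), c ≠ 0 ∧ 0 < r ∧
      ∀ z, br (TT α γ (lam * z)) (spin (p k i)) = c * (z + (r : ℂ)) := by
    intro i hi
    have hik := (hSmem i).1 hi
    obtain ⟨h1, t, ht, h2⟩ := hp k i hik.symm
    have ht1 := t_gt_one (hx k) (hx i) h1 t ht h2
    obtain ⟨κ, hκ, h3⟩ := Lam_spin α γ h1
    have h4 : Lam α γ (p k i) = -((t - 1 : ℝ) : ℂ) * lam := by
      rw [h2, Lam_line]
      have : Lam α γ (x i) = 0 := by rw [hs i hik, hL0]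
      rw [this, ← hlam]
      push_cast
      ring
    rw [h4] at h3
    have ht1' : 0 < t - 1 := by linarith
    set v := br (spin (p k i)) γ with hv
    have htc : ((t - 1 : ℝ) : ℂ) ≠ 0 := by exact_mod_cast ht1'.ne'
    have hκc : (κ : ℂ) ≠ 0 := by exact_mod_cast hκ.ne'
    have hv0 : v ≠ 0 := by
      intro h
      rw [h, map_zero, mul_zero] at h3
      exact (mul_ne_zero hκc (mul_ne_zero (neg_ne_zero.2 htc) hlam0)) h3.symm
    have hns : 0 < Complex.normSq v := Complex.normSq_pos.2 hv0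
    have hvv : v * (starRingEnd ℂ) v = ((Complex.normSq v : ℝ) : ℂ) := Complex.mul_conj v
    have hcv : (starRingEnd ℂ) v ≠ 0 := by
      intro h; rw [h, mul_zero] at hvv
      exact hns.ne' (by exact_mod_cast hvv.symm)
    refine ⟨v * lam / br α γ, κ * (t - 1) / Complex.normSq v, div_ne_zero (mul_ne_zero hv0 hlam0) hne,
      div_pos (mul_pos hκ ht1') hns, fun z => ?_⟩
    rw [br_TT _ _ _ _ hne, ← hv]
    have h5 : br (spin (p k i)) α = -(lam * v * ((κ * (t - 1) / Complex.normSq v : ℝ) : ℂ)) := by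
      apply mul_right_cancel₀ hcv
      rw [h3]
      push_cast
      rw [← hvv]
      field_simp
    rw [h5]
    field_simp
    ring
  choose! cA r hcA hr hAz using hA
  choose! cB q hcB hq hBz using hB
  -- the polynomial
  let G : Fin n → ℂ := fun i => g i * (lam ^ cnt S s i * cA i)
  let G0 : ℂ := g k * ∏ i ∈ S, cB i
  have hH : ∑ i ∈ S, C (G i) * (X ^ cnt S s i * (X - C ((r i : ℝ) : ℂ))) +
      C G0 * ∏ i ∈ S, (X + C ((q i : ℝ) : ℂ)) = (0 : ℂ[X]) := by
    apply Polynomial.eq_zero_of_infinite_isRoot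
    refine (TT_infinite α γ hne lam hlam0).mono ?_
    intro z hz
    have h1 := relation p g hg (TT α γ (lam * z)) hz
    change IsRoot _ z
    rw [IsRoot.def]
    rw [← Finset.add_sum_erase _ _ (Finset.mem_univ k)] at h1
    rw [← h1, add_comm]
    simp only [Polynomial.eval_add, Polynomial.eval_finsetSum, eval_mul, eval_C, eval_pow, eval_X,
      eval_sub, Polynomial.eval_prod]
    congr 1
    · have h2 : ∏ j ∈ Finset.univ.erase k, br (TT α γ (lam * z)) (spin (p k j)) =
          ∏ j ∈ S, (cB j * (z + ((q j : ℝ) : ℂ))) :=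
        Finset.prod_congr rfl fun j hj => hBz j hj z
      rw [h2, Finset.prod_mul_distrib]
      simp only [G0]
      ring
    · apply Finset.sum_congr rfl
      intro i hi
      have hik := (hSmem i).1 hi
      have hkmem : k ∈ Finset.univ.erase i := Finset.mem_erase.2 ⟨hik.symm, Finset.mem_univ _⟩
      rw [← Finset.mul_prod_erase _ _ hkmem]
      have hsets : (Finset.univ.erase i).erase k = S.erase i := by
        ext j; simp only [S, Finset.mem_erase, Finset.mem_univ, and_true]; tauto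
      rw [hsets, prod_line p S s hsinj _ _ hdir _ (lam * z) (hT1 _) (hT2 _) i hi, hAz i hi z]
      simp only [G]
      rw [mul_pow]
      ring
  obtain ⟨h1, h2⟩ := core S (cnt S s) (cnt_inj S s hsinj) (fun i hi => cnt_lt S s i hi) r q hr hq G G0 hH
  intro i
  by_cases hik : i = k
  · rw [hik]
    have h3 : ∏ i ∈ S, cB i ≠ 0 := Finset.prod_ne_zero_iff.2 fun i hi => hcB i hi
    exact (mul_eq_zero.1 h1).resolve_right h3
  · have hiS := (hSmem i).2 hik
    exact (mul_eq_zero.1 (h2 i hiS)).resolve_right (mul_ne_zero (pow_ne_zero _ hlam0) (hcA i hiS))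

end Line

/-- If all points but at most one lie on a geodesic, the configuration polynomials are linearly
independent. -/
theorem result (n : ℕ) (x : Fin n → Fin 3 → ℝ) (p : Fin n → Fin n → Fin 3 → ℝ)
    (hinj : Function.Injective x) (hx : ∀ i, ∑ k : Fin 3, (x i k) ^ 2 < 1)
    (hp : ∀ i j, i ≠ j → (∑ k : Fin 3, (p i j k) ^ 2 = 1) ∧
      ∃ t : ℝ, 0 < t ∧ p i j = x i + t • (x j - x i))
    (k : Fin n) (hcol : Collinear ℝ (x '' {i | i ≠ k})) :
    LinearIndependent ℂ (fun i : Fin n =>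
        ∏ j ∈ Finset.univ.erase i,
          (if p i j 2 = 1 then (1 : Polynomial ℂ) else
            Polynomial.X - Polynomial.C
              (((p i j 0 : ℂ) + (p i j 1 : ℂ) * Complex.I) / (1 - (p i j 2 : ℂ))))) := by
  classical
  rw [Fintype.linearIndependent_iff]
  intro g hg
  by_cases h1 : ∃ i0, i0 ≠ k
  · obtain ⟨i0, hi0⟩ := h1
    by_cases h2 : ∃ i1, i1 ≠ k ∧ i1 ≠ i0
    · obtain ⟨i1, hi1, hi10⟩ := h2
      have hmem : x i0 ∈ x '' {i | i ≠ k} := ⟨i0, hi0, rfl⟩
      obtain ⟨v, hv⟩ := (collinear_iff_of_mem hmem).1 hcol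
      have hv' : ∀ i, ∃ r : ℝ, i ≠ k → x i = x i0 + r • v := by
        intro i
        by_cases hik : i = k
        · exact ⟨0, fun h => absurd hik h⟩
        · obtain ⟨r, hr⟩ := hv (x i) ⟨i, hik, rfl⟩
          refine ⟨r, fun _ => ?_⟩
          rw [hr, vadd_eq_add, add_comm]
      choose s hs using hv'
      have hv0 : v ≠ 0 := by
        intro h
        apply hi10
        apply hinj
        rw [hs i1 hi1, h]
        simp
      by_cases hoff : ∃ τ : ℝ, x k = x i0 + τ • v
      · obtain ⟨τ, hτ⟩ := hoff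
        refine all_collinear x p hinj hx hp (x i0) v hv0 (fun i => if i = k then τ else s i) ?_ k g hg
        intro i
        by_cases hik : i = k
        · simp only [hik, if_true]; exact hτ
        · simp only [hik, if_false]; exact hs i hik
      · exact off_line x p hinj hx hp (x i0) v hv0 s k hs i0 hi0 hoff g hg
    · push Not at h2
      refine all_collinear x p hinj hx hp (x i0) (x k - x i0) ?_ (fun i => if i = k then 1 else 0) ?_ k g hg
      · intro h
        exact hi0 (hinj (sub_eq_zero.1 h)).symm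
      · intro i
        by_cases hik : i = k
        · simp [hik]
        · simp [h2 i hik]
          intro h
          exact absurd h hi0
  · push Not at h1
    have hd : (fun _ => 1 : Fin 3 → ℝ) ≠ 0 := by
      intro h
      have := congrFun h 0
      simp at this
    refine all_collinear x p hinj hx hp (x k) (fun _ => 1) hd (fun _ => 0) ?_ k g hg
    intro i
    rw [h1 i]
    simp

end Pool.Agent.Results.MP_1fedf0_gt.CollinearPlusOne
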